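import Pool.Agent.Run7.h968.TN.Defs5

/-!
Piece graph5.
-/

set_option autoImplicit false

namespace Pool.Agent.Run7.h459.TN

open Pool.Agent.Run7.h968.TN

open Classical in
/-- kernel vector -/
theorem kervec (V E : Type) (vs : Finset V) (es : Finset E) (s t : E → V)
    (hs : ∀ e ∈ es, s e ∈ vs) (ht : ∀ e ∈ es, t e ∈ vs) (hcard : vs.card < es.card) :
    ∃ c : E → ℚ, (∀ e, c e ≠ 0 → e ∈ es) ∧ (∃ e, c e ≠ 0) ∧
      ∀ φ : V → ℚ, ∑ e ∈ es, c e * (φ (t e) - φ (s e)) = 0 := by
  let f : (es → ℚ) →ₗ[ℚ] (vs → ℚ) :=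
    { toFun := fun c v => ∑ e : es, c e * ((if t e = v then 1 else 0) - (if s e = v then 1 else 0))
      map_add' := by
        intro c d
        funext v
        simp only [Pi.add_apply, add_mul, Finset.sum_add_distrib]
      map_smul' := by
        intro r c
        funext v
        simp only [Pi.smul_apply, smul_eq_mul, RingHom.id_apply, Finset.mul_sum, mul_assoc] }
  have hker : LinearMap.ker f ≠ ⊥ := by
    apply LinearMap.ker_ne_bot_of_finrank_lt
    simpa using hcard
  obtain ⟨c, hc, hc0⟩ := (Submodule.ne_bot_iff _).mp hker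
  have hc' : ∀ v : vs, ∑ e : es, c e * ((if t e = (v : V) then 1 else 0) -
      (if s e = (v : V) then 1 else 0)) = 0 := fun v => congrFun (LinearMap.mem_ker.mp hc) v
  refine ⟨fun e => if h : e ∈ es then c ⟨e, h⟩ else 0, ?_, ?_, ?_⟩
  · intro e he
    by_contra h
    exact he (dif_neg h)
  · by_contra h
    push Not at h
    apply hc0
    funext e
    have := h e
    rw [dif_pos e.2] at this
    exact this
  · intro φ
    have h1 : ∑ e ∈ es, (if h : e ∈ es then c ⟨e, h⟩ else 0) * (φ (t e) - φ (s e)) =
        ∑ e : es, c e * (φ (t e) - φ (s e)) := by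
      rw [← Finset.sum_coe_sort es]
      refine Finset.sum_congr rfl fun e _ => ?_
      rw [dif_pos e.2]
    rw [h1]
    have h2 : ∀ e : es, φ (t e) - φ (s e) =
        ∑ v : vs, φ v * ((if t e = (v : V) then 1 else 0) - (if s e = (v : V) then 1 else 0)) := by
      intro e
      have ht' : ∑ v : vs, φ v * (if t e = (v : V) then (1 : ℚ) else 0) = φ (t e) := by
        rw [Finset.sum_eq_single (⟨t e, ht e e.2⟩ : vs)]
        · simp
        · intro v _ hv
          rw [if_neg, mul_zero]
          intro h
          exact hv (Subtype.ext h.symm)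
        · intro h
          exact absurd (Finset.mem_univ _) h
      have hs' : ∑ v : vs, φ v * (if s e = (v : V) then (1 : ℚ) else 0) = φ (s e) := by
        rw [Finset.sum_eq_single (⟨s e, hs e e.2⟩ : vs)]
        · simp
        · intro v _ hv
          rw [if_neg, mul_zero]
          intro h
          exact hv (Subtype.ext h.symm)
        · intro h
          exact absurd (Finset.mem_univ _) h
      simp only [mul_sub, Finset.sum_sub_distrib]
      rw [ht', hs']
    calc ∑ e : es, c e * (φ (t e) - φ (s e))
        = ∑ e : es, ∑ v : vs, φ v * (c e * ((if t e = (v : V) then 1 else 0) -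
            (if s e = (v : V) then 1 else 0))) := by
          refine Finset.sum_congr rfl fun e _ => ?_
          rw [h2 e, Finset.mul_sum]
          refine Finset.sum_congr rfl fun v _ => ?_
          ring
      _ = ∑ v : vs, φ v * ∑ e : es, c e * ((if t e = (v : V) then 1 else 0) -
            (if s e = (v : V) then 1 else 0)) := by
          rw [Finset.sum_comm]
          refine Finset.sum_congr rfl fun v _ => ?_
          rw [Finset.mul_sum]
      _ = 0 := by
          refine Finset.sum_eq_zero fun v _ => ?_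
          rw [hc' v, mul_zero]

open Classical in
theorem notbridge (V E : Type) (es : Finset E) (s t : E → V) (c : E → ℚ)
    (hc : ∀ φ : V → ℚ, ∑ e ∈ es, c e * (φ (t e) - φ (s e)) = 0) (e : E) (he : e ∈ es)
    (hce : c e ≠ 0) :
    Relation.EqvGen (fun a b => ∃ e' ∈ es, e' ≠ e ∧ s e' = a ∧ t e' = b) (s e) (t e) := by
  by_contra hne
  set R : V → V → Prop := fun a b => ∃ e' ∈ es, e' ≠ e ∧ s e' = a ∧ t e' = b with hR
  have h := hc (fun v => if Relation.EqvGen R (s e) v then 1 else 0)
  rw [Finset.sum_eq_single e] at h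
  · rw [if_neg hne, if_pos (Relation.EqvGen.refl _)] at h
    apply hce
    linarith
  · intro e' he' hee'
    have hst : R (s e') (t e') := ⟨e', he', hee', rfl, rfl⟩
    have hiff : Relation.EqvGen R (s e) (t e') ↔ Relation.EqvGen R (s e) (s e') :=
      ⟨fun h => h.trans _ _ _ ((Relation.EqvGen.rel _ _ hst).symm _ _),
        fun h => h.trans _ _ _ (Relation.EqvGen.rel _ _ hst)⟩
    simp only [hiff, sub_self, mul_zero]
  · intro h'
    exact absurd he h'

theorem t_graph5 : P_graph5 := by
  intro V E vs es s t p hs ht hcard hp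
  obtain ⟨c, hc1, ⟨e0, he0⟩, hc3⟩ := kervec V E vs es s t hs ht hcard
  have hex : ∃ e, c e ≠ 0 ∧ ¬ p e := by
    by_contra hno
    push Not at hno
    exact he0 (hp c (fun e he => ⟨hc1 e he, hno e he⟩) hc3 e0)
  obtain ⟨e, he1, he2⟩ := hex
  exact ⟨e, hc1 e he1, he2, notbridge V E es s t c hc3 e (hc1 e he1) he1⟩

end Pool.Agent.Run7.h459.TN
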